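import Pool.Agent.Helper79K9.EA.Stab

/-!
# Edwards–Anderson spin glass at `β ≤ c / √d`: all external fields and all dilutions at once

The couplings are `β m_e J_e s_x s_y` on the edges `e = ⟨x, y⟩` of `ℤ^d`: `J_e` independent fair
signs, `m_e ∈ [0,1]` deterministic magnitudes, `s_x ∈ [-1,1]` weights of the sites; `h_x` real is an
external field. The magnitudes are fixed before the signs are drawn; the inverse temperature, the
weights and the field are arbitrary, simultaneously, and may depend on the signs. `s = 1` on a set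
and `0` off it is the model on that part of the lattice (half spaces, slabs, site dilution).
For `m = 1`, `s = 1`, `h = 0` it is the model of the question (clause (0)).

Definitions: `Site`, `dist1` (graph distance), `Coupling`, `Jc`, `glue`, `couplingLaw`, the model
`Pool.H47EA.IsGibbs` of the question, in `Pool.Agent.H47R2.EA.Defs`; `Unit01` (values in `[0,1]`),
`LocalOn A` (depends on the spins in `A` only), `ind x` (indicator of `σ_x = 1`, i.e.
`(1 + σ_x) / 2`) in `Pool.Agent.H47R2.EA.St`; `cpl` (the couplings), `gE` (finite-volume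
expectation), `IsGibbs` in `Pool.Agent.Helper79K9.EA.Defs`; `Decays` (influence of the boundary
condition), `Mixes` (covariances) in `Pool.Agent.Helper79K9.EA.Main`; both have the rate
`exp (-n / (8 d))` at distance `n`.
-/

set_option autoImplicit false

open MeasureTheory

namespace Pool.Agent.Results.MP_81d17b_pr.AllFieldsAndDilutions

open Pool.H47EA (Site dist1 Coupling couplingLaw Unit01 LocalOn ind)
open Pool.Agent.Helper79K9.EA

/-- There is an absolute constant `c > 0` such that for all `d ≥ 1` and all magnitudes `m` there are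
random prefactors `K_x ≥ 0` of mean at most `20000` with the following properties for almost every
realisation `J` of the signs, for all `β ∈ (0, c/√d]`, all site weights `s ∈ [-1,1]` and all
external fields `h` simultaneously:
1. there is exactly one Gibbs state;
2. the influence of the boundary condition on `f` decays exponentially, with prefactor `∑ K_a` over
   the support of `f`;
3. so do the covariances, in all finite volumes, for all boundary conditions, and for the Gibbs
   state;
4. the covariances of the spin at `x` with the others have sum at most `(18 d)^d K_x`;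
5. the Gibbs state near a set depends on the field and on the weights at distance `n` only up to an
   error `∑ K_a exp (-n / (8 d))`.
Clause (0): for `m = 1`, `s = 1`, `h = 0` these are the Gibbs states of the question. -/
theorem result :
    (∀ (d : ℕ) (β : ℝ) (J : Coupling d) (π : Measure (Site d → Bool)),
      IsGibbs (cpl β (fun _ => 1) (fun _ => 1) J) (fun _ => 0) π ↔ Pool.H47EA.IsGibbs β J π) ∧
    ∃ c : ℝ, 0 < c ∧ ∀ d : ℕ, 1 ≤ d → ∀ m : Sym2 (Site d) → ℝ, (∀ e, 0 ≤ m e ∧ m e ≤ 1) →
      ∃ K : Site d → Coupling d → ℝ,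
        (∀ x, (∀ J, 0 ≤ K x J) ∧ Integrable (K x) (couplingLaw d) ∧
          ∫ J, K x J ∂(couplingLaw d) ≤ 20000) ∧
        ∀ᵐ J ∂(couplingLaw d), ∀ β : ℝ, 0 < β → β ≤ c / √(d : ℝ) →
          ∀ s : Site d → ℝ, (∀ x, |s x| ≤ 1) → ∀ h : Site d → ℝ,
            (∃! π : Measure (Site d → Bool), IsGibbs (cpl β m s J) h π) ∧
            Decays (gE (cpl β m s J) h) (fun x => K x J) ∧
            (∀ (Λ : Finset (Site d)) (ω : Site d → Bool),
              Mixes (gE (cpl β m s J) h Λ ω) (fun x => K x J)) ∧
            (∀ (Λ : Finset (Site d)) (ω : Site d → Bool) (x : Site d) (S : Finset (Site d)),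
              ∑ y ∈ S, |gE (cpl β m s J) h Λ ω (fun σ => ind x σ * ind y σ) -
                gE (cpl β m s J) h Λ ω (ind x) * gE (cpl β m s J) h Λ ω (ind y)| ≤
                (18 * (d : ℝ)) ^ d * K x J) ∧
            ∀ π : Measure (Site d → Bool), IsGibbs (cpl β m s J) h π →
              Mixes (fun f => ∫ σ, f σ ∂π) (fun x => K x J) ∧
              (∀ (x : Site d) (S : Finset (Site d)),
                ∑ y ∈ S, |∫ σ, ind x σ * ind y σ ∂π - (∫ σ, ind x σ ∂π) * ∫ σ, ind y σ ∂π| ≤
                  (18 * (d : ℝ)) ^ d * K x J) ∧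
              ∀ (s' h' : Site d → ℝ) (π' : Measure (Site d → Bool)),
                IsGibbs (cpl β m s' J) h' π' → ∀ (A : Finset (Site d)) (f : (Site d → Bool) → ℝ),
                Unit01 f → LocalOn A f → ∀ n : ℕ,
                (∀ x, (∃ a ∈ A, dist1 a x ≤ n) → s x = s' x ∧ h x = h' x) →
                |∫ σ, f σ ∂π - ∫ σ, f σ ∂π'| ≤
                  (∑ a ∈ A, K a J) * Real.exp (-((n : ℝ) / (8 * d))) := by
  refine ⟨fun d β J π => isGibbs_iff β J π, ?_⟩
  obtain ⟨c, hc, h⟩ := main
  refine ⟨c, hc, fun d hd m hm => ?_⟩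
  obtain ⟨K, hK, hJ⟩ := h d hd m hm
  refine ⟨K, hK, ?_⟩
  filter_upwards [hJ] with J hJ β hβ0 hβ s hs h0
  have hD := hJ β hβ0 hβ s hs h0
  have hKn : ∀ x, 0 ≤ K x J := fun x => (hK x).1 J
  refine ⟨?_, hD, fun Λ ω => mixes_fin _ _ _ hD Λ ω, fun Λ ω x S =>
    susc hd _ _ hKn (mixes_fin _ _ _ hD Λ ω) x S, fun π hπ => ⟨mixes_gibbs _ _ _ hD π hπ,
      fun x S => susc hd _ _ hKn (mixes_gibbs _ _ _ hD π hπ) x S,
      fun s' h' π' hπ' A f hf hfA n hag => local_params β m J _ hD hπ hπ' A f hf hfA n hag⟩⟩
  obtain ⟨π, hπ⟩ := exists_gibbs (cpl β m s J) h0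
  exact ⟨π, hπ, fun π' hπ' => unique_gibbs _ _ (forget_of _ _ hd _ hD) π' π hπ' hπ⟩

end Pool.Agent.Results.MP_81d17b_pr.AllFieldsAndDilutions
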