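import Pool.Agent.Helper79K9.FS.A6

/-!
# Edwards–Anderson spin glass: the inverse temperatures with exponential mixing

The model is the one of the question (`Site`, `dist1` (graph distance), `Coupling`, `couplingLaw`,
`gE` (finite-volume expectation), `IsGibbs`, `betaC` in `Pool.Agent.H47R2.EA.Defs`; `Unit01`
(values in `[0,1]`), `LocalOn A` (depends on the spins in `A` only), `ind x` (indicator of
`σ_x = 1`) in `Pool.Agent.H47R2.EA.St`).

`infl β J n x` (in `Pool.Agent.Helper79K9.FS.A1`) is the supremum of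
`|π^ω_{L,βJ}(σ_x = 1) - π^ω'_{L,βJ}(σ_x = 1)|` over all finite `L ∋ x` and all boundary
conditions `ω`, `ω'` which agree at all sites outside `L` at distance less than `n` from `x`: the
greatest influence on the spin at `x` of the boundary condition at distance at least `n`. `DecaysAt`,
`MixesAt` (exponential decay with rate `a` and prefactors `K_x` of the influence of the boundary
condition and of the covariances) are in `Pool.Agent.Helper79K9.FS.A3` and `A4`; `sph 0 r` (in `A2`)
is the set of the sites at distance `r` from the origin.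
-/

set_option autoImplicit false

open MeasureTheory

namespace Pool.Agent.Results.MP_81d17b_pr.ExponentialMixingPhase

open Pool.H47EA (Site dist1 Coupling couplingLaw gE IsGibbs betaC)
open Pool.Agent.Helper79K9.FS (infl sph DecaysAt MixesAt)

/-- The expectation over the signs of the greatest influence on the spin at the origin of the
boundary condition at distance at least `n`, at inverse temperature `β`. -/
noncomputable def influence (d : ℕ) (β : ℝ) (n : ℕ) : ℝ :=
  ∫ J, infl β J n (0 : Site d) ∂(couplingLaw d)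

/-- The inverse temperatures at which `influence d β n` decays exponentially in `n`. -/
def phase (d : ℕ) : Set ℝ :=
  {β | 0 < β ∧ ∃ C a : ℝ, 0 < a ∧ ∀ n : ℕ, 1 ≤ n → influence d β n ≤ C * Real.exp (-(a * n))}

theorem influence_eq {d : ℕ} {β : ℝ} {n : ℕ} (hn : 1 ≤ n) :
    influence d β n = Pool.Agent.Helper79K9.FS.mm d β n :=
  (Pool.Agent.Helper79K9.FS.mm_eq β hn).symm

theorem phase_eq (d : ℕ) : phase d = Pool.Agent.Helper79K9.FS.phase d := by
  ext β
  constructor
  · rintro ⟨h0, C, a, ha, h⟩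
    exact ⟨h0, C, a, ha, fun n hn => by rw [← influence_eq hn]; exact h n hn⟩
  · rintro ⟨h0, C, a, ha, h⟩
    exact ⟨h0, C, a, ha, fun n hn => by rw [influence_eq hn]; exact h n hn⟩

/-- 1. The phases decrease with the dimension: `phase (d + 1) ⊆ phase d` (and
`influence d β n ≤ influence (d + 1) β n`).

For an absolute constant `c > 0` and all `d ≥ 1`:

2. `phase d` is open and contains `(0, c/√d]`.

3. For almost every realisation `J` of the signs, simultaneously for all `β ∈ phase d`: there is
exactly one Gibbs state at `(β, J)`, and `β_c(J) ≥ β`.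

4. Near every point of the phase the influence of the boundary condition and the covariances in the
Gibbs state decay exponentially with a fixed rate and prefactors `K_x(J)` of bounded mean, almost
surely for all these `β` simultaneously.

5. Outside the phase (hence at its end points, at every `β` at which uniqueness fails with positive
probability, and then in all higher dimensions, by 1.) the influence is at least
`1 / #{y : |y|₁ = 2 n}` for every `n ≥ 1`, where `#{y : |y|₁ = 2 n} ≤ 2 (4 n + 1) ^ (d - 1)`;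
conversely, if for a single `n ≥ 1` it is smaller than that, then `β` is in the phase. -/
theorem result :
    (∀ (d : ℕ) (β : ℝ) (n : ℕ), 1 ≤ n → influence d β n ≤ influence (d + 1) β n) ∧
    (∀ d : ℕ, phase (d + 1) ⊆ phase d) ∧
    ∃ c : ℝ, 0 < c ∧ ∀ d : ℕ, 1 ≤ d →
      IsOpen (phase d) ∧
      (∀ β : ℝ, 0 < β → β ≤ c / √(d : ℝ) → β ∈ phase d) ∧
      (∀ᵐ J ∂(couplingLaw d), ∀ β ∈ phase d,
        (∃! π : Measure (Site d → Bool), IsGibbs β J π) ∧ ENNReal.ofReal β ≤ betaC J) ∧
      (∀ β₀ ∈ phase d, ∃ ε : ℝ, 0 < ε ∧ ∃ a : ℝ, 0 < a ∧ ∃ C : ℝ,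
        ∃ K : Site d → Coupling d → ℝ,
          (∀ x, (∀ J, 0 ≤ K x J) ∧ Integrable (K x) (couplingLaw d) ∧
            ∫ J, K x J ∂(couplingLaw d) ≤ C) ∧
          ∀ᵐ J ∂(couplingLaw d), ∀ β : ℝ, |β - β₀| < ε →
            DecaysAt (gE β J) (fun x => K x J) a ∧
            ∀ π : Measure (Site d → Bool), IsGibbs β J π →
              MixesAt (fun f => ∫ σ, f σ ∂π) (fun x => K x J) a) ∧
      (∀ β : ℝ, 0 < β → (β ∉ phase d ↔
        ∀ n : ℕ, 1 ≤ n → 1 / ((sph (0 : Site d) (2 * n)).card : ℝ) ≤ influence d β n)) ∧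
      ∀ r : ℕ, (∀ y : Site d, y ∈ sph (0 : Site d) r ↔ dist1 0 y = r) ∧
        (sph (0 : Site d) r).card ≤ 2 * (2 * r + 1) ^ (d - 1) := by
  refine ⟨fun d β n hn => ?_, fun d => ?_, ?_⟩
  · rw [influence_eq hn, influence_eq hn]
    exact Pool.Agent.Helper79K9.FS.mm_dim β hn
  · rw [phase_eq, phase_eq]
    exact Pool.Agent.Helper79K9.FS.phase_dim
  obtain ⟨c, hc, hsmall⟩ := Pool.Agent.Helper79K9.FS.small
  refine ⟨c, hc, fun d hd => ?_⟩
  rw [phase_eq]
  refine ⟨Pool.Agent.Helper79K9.FS.isOpen_phase hd, hsmall d hd, ?_, ?_, ?_, ?_⟩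
  · filter_upwards [Pool.Agent.Helper79K9.FS.ae_phase hd] with J hJ β hβ
    obtain ⟨K, a, ha, hD⟩ := hJ β hβ
    have hu := Pool.Agent.Helper79K9.FS.unique_of ha hD
    refine ⟨hu, ?_⟩
    unfold betaC
    exact le_iSup₂_of_le (f := fun (b : ℝ) (_ : 0 < b ∧ ∃! π, IsGibbs b J π) => ENNReal.ofReal b)
      β ⟨hβ.1, hu⟩ le_rfl
  · intro β₀ hβ₀
    obtain ⟨n0, hn0, h⟩ := Pool.Agent.Helper79K9.FS.exists_scale hβ₀
    obtain ⟨ε, hε, a, ha, C, -, K, hK, hD⟩ := Pool.Agent.Helper79K9.FS.local_main hd β₀ hn0 h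
    refine ⟨ε, hε, a, ha, C, K, hK, ?_⟩
    filter_upwards [hD] with J hJ β hβ
    exact ⟨hJ β hβ, fun π hπ => Pool.Agent.Helper79K9.FS.mixes_gibbs (hJ β hβ) π hπ⟩
  · intro β hβ
    rw [Pool.Agent.Helper79K9.FS.not_phase_iff hd hβ]
    exact forall_congr' fun n => forall_congr' fun hn => by rw [influence_eq hn]
  · intro r
    exact ⟨fun y => Pool.Agent.Helper79K9.FS.mem_sph 0 y r,
      Pool.Agent.Helper79K9.FS.card_sph_poly hd r⟩

end Pool.Agent.Results.MP_81d17b_pr.ExponentialMixingPhase
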