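import Pool.Agent.Helper79K9.SM.Final

/-!
# Edwards–Anderson spin glass: infinite differentiability of the Gibbs expectations

`Site`, `dist1`, `Coupling`, `couplingLaw` and the model of the question (`Pool.H47EA.IsGibbs`) are in
`Pool.Agent.H47R2.EA.Defs`; `Unit01` (values in `[0,1]`), `LocalOn A` (depends on the spins in `A`
only) in `Pool.Agent.H47R2.EA.St`; the model with magnitudes `m_e ∈ [0,1]`, site weights
`s_x ∈ [-1,1]` and external fields `h_x` (`cpl β m s J` are the couplings `β m_e J_e s_x s_y`;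
`IsGibbs`) in `Pool.Agent.Helper79K9.EA.Defs`; `FS.phase d`, the set of the `β > 0` at which the
expected greatest influence `FS.mm d β n` of the boundary condition at distance at least `n` on the
spin at a site decays exponentially in `n`, in `Pool.Agent.Helper79K9.FS.A3` (it is open and contains
`(0, c/√d]`, see the hand-in ExponentialMixingPhase).
-/

set_option autoImplicit false

open MeasureTheory Set
open scoped ContDiff

namespace Pool.Agent.Results.MP_81d17b_pr.InfiniteDifferentiability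

open Pool.H47EA (Site Coupling couplingLaw Unit01 LocalOn)
open Pool.Agent.Helper79K9.EA (cpl IsGibbs)

/-- I. There is an absolute constant `c > 0` such that for all `d ≥ 1` and all magnitudes `m` there
are random `K_x ≥ 0` of mean at most `20000` and constants `C` with the following properties.

(a) For almost every realisation `J` of the signs, simultaneously for all site weights `s ∈ [-1,1]`,
all external fields `h`, all directions `h' ∈ [-1,1]`, `b ∈ [-1,1]` and all intervals `(p, q)` such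
that `β + t b ∈ (0, c/√d]` for `t ∈ (p, q)`: at inverse temperature `β + t b` and external field
`h + t h'` there is exactly one Gibbs state `π_t`, and the expectation `∫ f dπ_t` of every local
observable `f` is a `C^∞` function of `t`; its `k`-th derivative is at most
`C (#A, k, r) (1 + ∑_{x ∈ A} K_x(J))` at distance at least `r` from the end points, for `f` with
values in `[0,1]` depending on the spins in `A` only.

(b) If `s, h, h'` do not depend on `J`, the quenched expectations `E ∫ f dπ_t` are `C^∞` too.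

II. In the model of the question, in the whole phase of exponential mixing: almost surely all
`β ↦ ∫ f dπ_β` are `C^∞` on `phase d`, and so are the quenched expectations `E ∫ f dπ_β`. -/
theorem result :
    (∃ c : ℝ, 0 < c ∧ ∀ d : ℕ, 1 ≤ d → ∀ m : Sym2 (Site d) → ℝ, (∀ e, 0 ≤ m e ∧ m e ≤ 1) →
      ∃ (K : Site d → Coupling d → ℝ) (C : ℕ → ℕ → ℝ → ℝ),
        (∀ x, (∀ J, 0 ≤ K x J) ∧ Integrable (K x) (couplingLaw d) ∧
          ∫ J, K x J ∂(couplingLaw d) ≤ 20000) ∧
        (∀ᵐ J ∂(couplingLaw d), ∀ s h h' : Site d → ℝ, (∀ x, |s x| ≤ 1) → (∀ x, |h' x| ≤ 1) →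
          ∀ β b p q : ℝ, |b| ≤ 1 → (∀ t ∈ Ioo p q, 0 < β + t * b ∧ β + t * b ≤ c / √(d : ℝ)) →
            (∀ t ∈ Ioo p q, ∃! π : Measure (Site d → Bool),
              IsGibbs (cpl (β + t * b) m s J) (fun x => h x + t * h' x) π) ∧
            ∀ π : ℝ → Measure (Site d → Bool), (∀ t ∈ Ioo p q,
              IsGibbs (cpl (β + t * b) m s J) (fun x => h x + t * h' x) (π t)) →
              ∀ (A : Finset (Site d)) (f : (Site d → Bool) → ℝ), Unit01 f → LocalOn A f →
                ContDiffOn ℝ ∞ (fun t => ∫ σ, f σ ∂(π t)) (Ioo p q) ∧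
                ∀ (k : ℕ) (r : ℝ), 0 < r → ∀ t ∈ Icc (p + r) (q - r),
                  |iteratedDeriv k (fun t => ∫ σ, f σ ∂(π t)) t| ≤
                    C A.card k r * (1 + ∑ x ∈ A, K x J)) ∧
        ∀ s h h' : Site d → ℝ, (∀ x, |s x| ≤ 1) → (∀ x, |h' x| ≤ 1) →
          ∀ β b p q : ℝ, |b| ≤ 1 → (∀ t ∈ Ioo p q, 0 < β + t * b ∧ β + t * b ≤ c / √(d : ℝ)) →
            ∀ π : Coupling d → ℝ → Measure (Site d → Bool),
              (∀ᵐ J ∂(couplingLaw d), ∀ t ∈ Ioo p q,
                IsGibbs (cpl (β + t * b) m s J) (fun x => h x + t * h' x) (π J t)) →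
              ∀ (A : Finset (Site d)) (f : (Site d → Bool) → ℝ), Unit01 f → LocalOn A f →
                ContDiffOn ℝ ∞ (fun t => ∫ J, ∫ σ, f σ ∂(π J t) ∂(couplingLaw d)) (Ioo p q)) ∧
    ∀ d : ℕ, 1 ≤ d →
      (∀ᵐ J ∂(couplingLaw d), ∀ π : ℝ → Measure (Site d → Bool),
        (∀ β ∈ Pool.Agent.Helper79K9.FS.phase d, Pool.H47EA.IsGibbs β J (π β)) →
        ∀ (A : Finset (Site d)) (f : (Site d → Bool) → ℝ), Unit01 f → LocalOn A f →
          ContDiffOn ℝ ∞ (fun β => ∫ σ, f σ ∂(π β)) (Pool.Agent.Helper79K9.FS.phase d)) ∧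
      ∀ π : Coupling d → ℝ → Measure (Site d → Bool), (∀ᵐ J ∂(couplingLaw d),
        ∀ β ∈ Pool.Agent.Helper79K9.FS.phase d, Pool.H47EA.IsGibbs β J (π J β)) →
        ∀ (A : Finset (Site d)) (f : (Site d → Bool) → ℝ), Unit01 f → LocalOn A f →
          ContDiffOn ℝ ∞ (fun β => ∫ J, ∫ σ, f σ ∂(π J β) ∂(couplingLaw d))
            (Pool.Agent.Helper79K9.FS.phase d) := by
  refine ⟨?_, fun d hd => ⟨Pool.Agent.Helper79K9.SM.phase_smooth hd, fun π hπ A f hf hfA =>
    Pool.Agent.Helper79K9.SM.phase_average hd π hπ A f hf hfA⟩⟩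
  obtain ⟨c, hc, hmain⟩ := Pool.Agent.Helper79K9.EA.main
  refine ⟨c, hc, fun d hd m hm => ?_⟩
  obtain ⟨K, hK, hJ⟩ := hmain d hd m hm
  have hd0 : (0 : ℝ) < d := by exact_mod_cast hd
  have ha : (0 : ℝ) < 1 / (8 * d) := by positivity
  choose C _ hC using fun N => Pool.Agent.Helper79K9.SM.model_smooth (1 / (8 * (d : ℝ))) ha d N
  refine ⟨K, C, hK, ?_, ?_⟩
  · filter_upwards [hJ] with J hJ s h h' hs hh' β b p q hb hpq
    have hD : ∀ t ∈ Ioo p q, Pool.Agent.Helper79K9.EA.Decays
        (Pool.Agent.Helper79K9.EA.gE (cpl (β + t * b) m s J) (fun x => h x + t * h' x))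
        (fun x => K x J) := fun t ht => hJ _ (hpq t ht).1 (hpq t ht).2 s hs _
    refine ⟨fun t ht => ?_, fun π hπ A f hf hfA => ?_⟩
    · obtain ⟨π, hπ⟩ := Pool.Agent.Helper79K9.EA.exists_gibbs (cpl (β + t * b) m s J)
        (fun x => h x + t * h' x)
      exact ⟨π, hπ, fun π' hπ' => Pool.Agent.Helper79K9.EA.unique_gibbs _ _
        (Pool.Agent.Helper79K9.EA.forget_of _ _ hd _ (hD t ht)) π' π hπ' hπ⟩
    · simp only [Pool.Agent.Helper79K9.SM.cpl_affine] at hD hπ
      have key := hC A.card p q (cpl β m s J) (cpl b m s J) h h'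
        (Pool.Agent.Helper79K9.SM.cpl_le hb hm hs J) hh' (fun x => K x J)
        (fun x => (hK x).1 J) (fun t ht => Pool.Agent.Helper79K9.SM.decaysAt_of (hD t ht)) π hπ A f
        le_rfl hf hfA
      exact ⟨key.1, key.2.2.2⟩
  · intro s h h' hs hh' β b p q hb hpq π hπ A f hf hfA
    refine Pool.Agent.Helper79K9.SM.average (1 / (8 * (d : ℝ))) ha p q m hm s h h' hs hh' β b hb K
      (fun x => ⟨(hK x).1, (hK x).2.1⟩) ?_ π hπ A f hf hfA
    filter_upwards [hJ] with J hJ t ht
    exact Pool.Agent.Helper79K9.SM.decaysAt_of (hJ _ (hpq t ht).1 (hpq t ht).2 s hs _)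

end Pool.Agent.Results.MP_81d17b_pr.InfiniteDifferentiability
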