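import Pool.Agent.Helper79K9.SM.Press4

/-!
# Edwards–Anderson spin glass: the quenched pressure is infinitely differentiable

`Site`, `dist1`, `Coupling`, `couplingLaw` and the model of the question (`ham`, `Zp` (partition
function in a finite volume with a boundary condition), `IsGibbs`) are in `Pool.Agent.H47R2.EA.Defs`.
`FS.phase d` (in `Pool.Agent.Helper79K9.FS.A3`) is the set of the `β > 0` at which the expected
greatest influence `FS.mm d β n` of the boundary condition at distance at least `n` on the spin at a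
site decays exponentially in `n`; it is open and contains `(0, c/√d]` (hand-in
ExponentialMixingPhase). `SM.low d` (in `Pool.Agent.Helper79K9.SM.Press4`) is the set of the `β > 0`
with `(0, β] ⊆ phase d`, `SM.uu π β = ∑ i, E ∫ J_{0,e_i} σ_0 σ_{e_i} dπ_{J,β}` the mean energy per
site, and `SM.Box d N` (in `Press3`) the box `{-N, ..., N}^d`.
-/

set_option autoImplicit false

open MeasureTheory Set Filter Topology
open scoped ContDiff

namespace Pool.Agent.Results.MP_81d17b_pr.QuenchedPressure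

open Pool.H47EA (Site Coupling couplingLaw IsGibbs Zp)
open Pool.Agent.Helper79K9.FS (phase)
open Pool.Agent.Helper79K9.SM (low uu Box)

open Classical in
/-- some Gibbs state at `(β, J)` -/
noncomputable def pick {d : ℕ} (J : Coupling d) (β : ℝ) : Measure (Site d → Bool) :=
  if h : ∃ π, IsGibbs β J π then h.choose else 0

theorem pick_spec {d : ℕ} {J : Coupling d} {β : ℝ} (h : ∃ π, IsGibbs β J π) :
    IsGibbs β J (pick J β) := by
  unfold pick
  rw [dif_pos h]
  exact h.choose_spec

/-- `low d` is open and contains `(0, c/√d]` for an absolute constant `c > 0`. For every `d ≥ 1`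
there is a function `p`, the quenched pressure, such that

1. for `β ∈ low d` the expectation of `log Z / (2N+1)^d` in the box `{-N, ..., N}^d`, with any
boundary conditions `ξ_N`, converges to `p(β)`;

2. `p` is infinitely differentiable on `low d`;

3. almost surely there is exactly one Gibbs state at `(β, J)` for all `β ∈ phase d`, and for Gibbs
states `π_{J,β}` the mean energy per site `u(β) = ∑ i, E ∫ J_{0,e_i} σ_0 σ_{e_i} dπ_{J,β}` is
infinitely differentiable on the whole of `phase d`, and `p' = u`, `p(β) = log 2 + ∫_0^β u` for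
`β ∈ low d`. -/
theorem result :
    (∃ c : ℝ, 0 < c ∧ ∀ d : ℕ, 1 ≤ d → ∀ β : ℝ, 0 < β → β ≤ c / √(d : ℝ) → β ∈ low d) ∧
    ∀ d : ℕ, 1 ≤ d → IsOpen (low d) ∧ low d ⊆ phase d ∧
      ∃ p : ℝ → ℝ,
        (∀ β ∈ low d, ∀ ξ : ℕ → Site d → Bool,
          Tendsto (fun N : ℕ =>
            (∫ J, Real.log (Zp β J (Box d N) (ξ N)) ∂(couplingLaw d)) / (2 * N + 1) ^ d)
            atTop (𝓝 (p β))) ∧
        ContDiffOn ℝ ∞ p (low d) ∧
        (∀ᵐ J ∂(couplingLaw d), ∀ β ∈ phase d, ∃! π : Measure (Site d → Bool), IsGibbs β J π) ∧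
        ∀ π : Coupling d → ℝ → Measure (Site d → Bool),
          (∀ᵐ J ∂(couplingLaw d), ∀ β ∈ phase d, IsGibbs β J (π J β)) →
            ContDiffOn ℝ ∞ (uu π) (phase d) ∧
            ∀ β ∈ low d, HasDerivAt p (uu π β) β ∧
              p β = Real.log 2 + ∫ b in (0 : ℝ)..β, uu π b := by
  refine ⟨?_, fun d hd => ?_⟩
  · obtain ⟨c, hc, h⟩ := Pool.Agent.Helper79K9.FS.small
    exact ⟨c, hc, fun d hd β h0 h1 => ⟨h0, fun b hb => h d hd b hb.1 (hb.2.trans h1)⟩⟩
  have hex : ∀ᵐ J ∂(couplingLaw d), ∀ β ∈ phase d,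
      ∃! π : Measure (Site d → Bool), IsGibbs β J π := by
    filter_upwards [Pool.Agent.Helper79K9.FS.ae_phase hd] with J hJ β hβ
    obtain ⟨K, a, ha, hD⟩ := hJ β hβ
    exact Pool.Agent.Helper79K9.FS.unique_of ha hD
  have hpick : ∀ᵐ J ∂(couplingLaw d), ∀ β ∈ phase d, IsGibbs β J (pick J β) := by
    filter_upwards [hex] with J hJ β hβ
    exact pick_spec (hJ β hβ).exists
  refine ⟨Pool.Agent.Helper79K9.SM.isOpen_low hd, fun β hβ => hβ.2 ⟨hβ.1, le_rfl⟩,
    Pool.Agent.Helper79K9.SM.pr pick,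
    fun β hβ ξ => Pool.Agent.Helper79K9.SM.pr_limit hd pick hpick hβ ξ,
    Pool.Agent.Helper79K9.SM.pr_smooth hd pick hpick, hex, fun π hπ => ?_⟩
  have huu : ∀ β ∈ phase d, uu (d := d) pick β = uu π β := by
    intro β hβ
    unfold uu
    refine Finset.sum_congr rfl fun i _ => integral_congr_ae ?_
    filter_upwards [hex, hpick, hπ] with J h1 h2 h3
    rw [(h1 β hβ).unique (h2 β hβ) (h3 β hβ)]
  refine ⟨Pool.Agent.Helper79K9.SM.uu_smooth hd π hπ, fun β hβ => ⟨?_, ?_⟩⟩
  · rw [← huu β (hβ.2 ⟨hβ.1, le_rfl⟩)]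
    exact Pool.Agent.Helper79K9.SM.pr_deriv hd pick hpick hβ
  · unfold Pool.Agent.Helper79K9.SM.pr
    congr 1
    rw [intervalIntegral.integral_of_le hβ.1.le, intervalIntegral.integral_of_le hβ.1.le]
    exact setIntegral_congr_fun measurableSet_Ioc fun b hb => huu b (hβ.2 hb)

end Pool.Agent.Results.MP_81d17b_pr.QuenchedPressure
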